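import Mathlib

set_option autoImplicit false

namespace Pool.Agent.Lib.MP_f10b34_al

/-- A group `G` of permutations of the tree `X^* = List X` (a faithful action) is self-similar. -/
def SelfSimilar {X : Type} (G : Subgroup (Equiv.Perm (List X))) : Prop :=
  ∀ g ∈ G, ∀ x : X, ∃ y : X, ∃ h ∈ G, ∀ w : List X, g (x :: w) = y :: h w

/-- Contracting: a finite `N ⊆ G` contains the restrictions `g|_v` for all long enough `v`;
`h = g|_v` means `g (v w) = g(v) h(w)` for all `w`. -/
def Contracting {X : Type} (G : Subgroup (Equiv.Perm (List X))) : Prop :=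
  ∃ N : Finset (Equiv.Perm (List X)), (∀ h ∈ N, h ∈ G) ∧
    ∀ g ∈ G, ∃ n : ℕ, ∀ v : List X, n < v.length →
      ∃ h ∈ N, ∀ w : List X, g (v ++ w) = g v ++ h w

/-- `g ξ = η` on the boundary: `g` maps each finite beginning of `ξ` to that of `η`. -/
def Sends {X : Type} (g : Equiv.Perm (List X)) (ξ η : ℕ → X) : Prop :=
  ∀ n : ℕ, g (List.ofFn fun i : Fin n => ξ i) = List.ofFn fun i : Fin n => η i

/-- The Schreier graph on the boundary: `η` is joined to `s η` for `s ∈ S`.
Its connected components are the orbital Schreier graphs. -/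
def schreier {X : Type} (S : Finset (Equiv.Perm (List X))) : SimpleGraph (ℕ → X) :=
  SimpleGraph.fromRel fun η ζ => ∃ s ∈ S, Sends s η ζ

/-- The number of vertices at graph distance at most `n` from `ξ`. -/
noncomputable def growth {X : Type} (S : Finset (Equiv.Perm (List X))) (ξ : ℕ → X) (n : ℕ) : ℕ :=
  {η : ℕ → X | (schreier S).edist ξ η ≤ n}.ncard

/-- The degree of growth `limsup log γ(n) / log n`, in the extended reals. -/
noncomputable def degree {X : Type} (S : Finset (Equiv.Perm (List X))) (ξ : ℕ → X) : EReal :=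
  Filter.limsup (fun n : ℕ => ((Real.log (growth S ξ n) / Real.log n : ℝ) : EReal)) Filter.atTop

end Pool.Agent.Lib.MP_f10b34_al
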