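import Mathlib

set_option autoImplicit false

namespace Pool.Agent.Lib.MP_f10b34_al

/-- `G` acts transitively on every level `X^n` of the tree. -/
def LevelTransitive {X : Type} (G : Subgroup (Equiv.Perm (List X))) : Prop :=
  ∀ v w : List X, v.length = w.length → ∃ g ∈ G, g v = w

/-- Self-replicating (recurrent): for each letter `x`, every `h ∈ G` is the restriction `g|_x`
of some `g ∈ G` fixing `x`. -/
def SelfReplicating {X : Type} (G : Subgroup (Equiv.Perm (List X))) : Prop :=
  ∀ x : X, ∀ h ∈ G, ∃ g ∈ G, ∀ w : List X, g (x :: w) = x :: h w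

end Pool.Agent.Lib.MP_f10b34_al
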