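import Pool.Agent.Lib.MP_f10b34_al.Defs
import Pool.Agent.Lib.MP_f10b34_al.Defs2

set_option autoImplicit false

namespace Pool.Agent.Lib.MP_f10b34_al

open Filter

variable {X : Type}

/-- the beginning of length `n` of `ξ`. -/
def pre (ξ : ℕ → X) (n : ℕ) : List X := List.ofFn fun i : Fin n => ξ i

lemma sends_iff {g : Equiv.Perm (List X)} {ξ η : ℕ → X} :
    Sends g ξ η ↔ ∀ n, g (pre ξ n) = pre η n := Iff.rfl

@[simp] lemma pre_length (ξ : ℕ → X) (n : ℕ) : (pre ξ n).length = n := by simp [pre]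

@[simp] lemma pre_zero (ξ : ℕ → X) : pre ξ 0 = [] := by simp [pre]

lemma pre_succ (ξ : ℕ → X) (n : ℕ) : pre ξ (n + 1) = pre ξ n ++ [ξ n] := by
  unfold pre
  rw [List.ofFn_succ_last]
  simp

lemma pre_succ' (ξ : ℕ → X) (n : ℕ) : pre ξ (n + 1) = ξ 0 :: pre (fun i => ξ (i + 1)) n := by
  simp [pre, List.ofFn_succ]

lemma pre_add (ξ : ℕ → X) (n k : ℕ) :
    pre ξ (n + k) = pre ξ n ++ pre (fun i => ξ (n + i)) k := by
  induction k with
  | zero => simp
  | succ k ih => rw [← add_assoc, pre_succ, ih, pre_succ, List.append_assoc]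

lemma pre_eq_iff {ξ η : ℕ → X} {n : ℕ} : pre ξ n = pre η n ↔ ∀ i < n, ξ i = η i := by
  unfold pre
  rw [List.ofFn_inj]
  exact ⟨fun h i hi => congrFun h ⟨i, hi⟩, fun h => funext fun i => h i i.2⟩

lemma eq_of_pre {ξ η : ℕ → X} {n : ℕ} (h : ∀ k, n ≤ k → pre ξ k = pre η k) : ξ = η := by
  funext i
  exact pre_eq_iff.1 (h (n + i + 1) (by omega)) i (by omega)

lemma Sends.unique {g : Equiv.Perm (List X)} {ξ η ζ : ℕ → X} (h : Sends g ξ η)
    (h' : Sends g ξ ζ) : η = ζ :=
  eq_of_pre (n := 0) fun k _ => (sends_iff.1 h k).symm.trans (sends_iff.1 h' k)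

lemma Sends.inv {g : Equiv.Perm (List X)} {ξ η : ℕ → X} (h : Sends g ξ η) : Sends g⁻¹ η ξ := by
  intro n
  have := sends_iff.1 h n
  change g⁻¹ (pre η n) = pre ξ n
  rw [← this]; simp

lemma ball_succ {S : Finset (Equiv.Perm (List X))} {ξ η : ℕ → X} {n : ℕ}
    (h : (schreier S).edist ξ η ≤ (n + 1 : ℕ)) :
    (schreier S).edist ξ η ≤ n ∨ ∃ ζ, (schreier S).edist ξ ζ ≤ n ∧ (schreier S).Adj ζ η := by
  have hne : (schreier S).edist η ξ ≠ ⊤ := by
    rw [SimpleGraph.edist_comm]
    exact ne_top_of_le_ne_top (by simp) h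
  obtain ⟨p, hp⟩ := SimpleGraph.exists_walk_of_edist_ne_top hne
  rw [SimpleGraph.edist_comm] at hp
  cases p with
  | nil => left; simp
  | cons hadj q =>
    right
    refine ⟨_, ?_, hadj.symm⟩
    rw [SimpleGraph.edist_comm]
    refine (SimpleGraph.edist_le q).trans ?_
    rw [← hp] at h
    simp only [SimpleGraph.Walk.length_cons] at h
    exact_mod_cast (by exact_mod_cast h : q.length + 1 ≤ n + 1) |> Nat.le_of_succ_le_succ

lemma ball_step {S : Finset (Equiv.Perm (List X))} {ξ η ζ : ℕ → X} {n : ℕ}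
    (h : (schreier S).edist ξ ζ ≤ n) (h' : (schreier S).Adj ζ η ∨ ζ = η) :
    (schreier S).edist ξ η ≤ (n + 1 : ℕ) := by
  refine (SimpleGraph.edist_triangle (v := ζ)).trans ?_
  push_cast
  exact add_le_add h (SimpleGraph.edist_le_one_iff_adj_or_eq.2 h')

lemma neighbors_finite (S : Finset (Equiv.Perm (List X))) (ζ : ℕ → X) :
    {η | (schreier S).Adj ζ η}.Finite := by
  have h1 : ∀ s : Equiv.Perm (List X), {η | Sends s ζ η}.Finite := fun s =>
    Set.Subsingleton.finite fun a ha b hb => Sends.unique ha hb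
  refine ((S.finite_toSet.biUnion fun s _ => h1 s).union
    (S.finite_toSet.biUnion fun s _ => h1 s⁻¹)).subset ?_
  intro η hη
  simp only [schreier, SimpleGraph.fromRel_adj, Set.mem_ofPred_eq] at hη
  rcases hη.2 with ⟨s, hs, h⟩ | ⟨s, hs, h⟩
  · left; exact Set.mem_biUnion hs h
  · right; exact Set.mem_biUnion hs h.inv

lemma ball_finite (S : Finset (Equiv.Perm (List X))) (ξ : ℕ → X) (n : ℕ) :
    {η | (schreier S).edist ξ η ≤ n}.Finite := by
  induction n with
  | zero =>
    refine (Set.finite_singleton ξ).subset fun η hη => ?_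
    simp only [Set.mem_ofPred_eq, Nat.cast_zero, nonpos_iff_eq_zero,
      SimpleGraph.edist_eq_zero_iff] at hη
    exact hη.symm
  | succ n ih =>
    refine (ih.union (ih.biUnion fun ζ _ => neighbors_finite S ζ)).subset fun η hη => ?_
    rcases ball_succ hη with h | ⟨ζ, h, h'⟩
    · exact Or.inl h
    · exact Or.inr (Set.mem_biUnion (s := {η | (schreier S).edist ξ η ≤ n}) h h')

lemma one_le_growth (S : Finset (Equiv.Perm (List X))) (ξ : ℕ → X) (n : ℕ) :
    1 ≤ growth S ξ n := by
  unfold growth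
  rw [Nat.one_le_iff_ne_zero, Ne, Set.ncard_eq_zero (ball_finite S ξ n)]
  exact Set.Nonempty.ne_empty ⟨ξ, by simp⟩

lemma growth_ge_of_infinite {S : Finset (Equiv.Perm (List X))} {ξ : ℕ → X}
    (h : {η | (schreier S).Reachable ξ η}.Infinite) (n : ℕ) : n + 1 ≤ growth S ξ n := by
  induction n with
  | zero => exact one_le_growth S ξ 0
  | succ n ih =>
    refine Nat.succ_le_of_lt (lt_of_le_of_lt ih ?_)
    unfold growth
    refine Set.ncard_lt_ncard ⟨fun η hη => ball_step hη (Or.inr rfl), ?_⟩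
      (ball_finite S ξ (n + 1))
    intro hsub
    apply h
    refine (ball_finite S ξ n).subset fun η hη => ?_
    have key : ∀ k : ℕ, ∀ η, (schreier S).edist ξ η ≤ k → (schreier S).edist ξ η ≤ n := by
      intro k
      induction k with
      | zero => intro η hη; exact hη.trans (by simp)
      | succ k ihk =>
        intro η hη
        rcases ball_succ hη with h | ⟨ζ, h, h'⟩
        · exact ihk η h
        · exact hsub (ball_step (ihk ζ h) (Or.inl h'))
    obtain ⟨p, hp⟩ := SimpleGraph.Reachable.exists_walk_length_eq_edist hη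
    exact key p.length η hp.ge

lemma growth_le_of_finite {S : Finset (Equiv.Perm (List X))} {ξ : ℕ → X}
    (h : {η | (schreier S).Reachable ξ η}.Finite) : ∃ C : ℕ, ∀ n, growth S ξ n ≤ C := by
  refine ⟨_, fun n => Set.ncard_le_ncard (fun η hη => ?_) h⟩
  exact SimpleGraph.reachable_of_edist_ne_top (ne_top_of_le_ne_top (by simp) hη)

lemma tendsto_const_div_log (c : ℝ) :
    Tendsto (fun n : ℕ => c / Real.log n) atTop (nhds 0) :=
  (Real.tendsto_log_atTop.comp tendsto_natCast_atTop_atTop).const_div_atTop c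

lemma limsup_le_of_bound {γ : ℕ → ℕ} (h1 : ∀ n, 1 ≤ γ n) {C d : ℝ} (hC : 0 < C)
    (h : ∀ n : ℕ, 1 ≤ n → (γ n : ℝ) ≤ C * (n : ℝ) ^ d) :
    limsup (fun n : ℕ => ((Real.log (γ n) / Real.log n : ℝ) : EReal)) atTop ≤ (d : EReal) := by
  rw [← EReal.le_of_forall_lt_iff_le]
  intro z hz
  have hz' : d < z := by exact_mod_cast hz
  refine limsup_le_of_le (by isBoundedDefault) ?_
  have h2 := (tendsto_const_div_log (Real.log C)).eventually (gt_mem_nhds (sub_pos.2 hz'))
  filter_upwards [h2, eventually_ge_atTop 2] with n hn hn2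
  have hn1 : (1 : ℝ) < n := by exact_mod_cast hn2
  have hl : 0 < Real.log n := Real.log_pos hn1
  have hg : (0 : ℝ) < γ n := by exact_mod_cast h1 n
  have h3 : Real.log (γ n) ≤ Real.log C + d * Real.log n := by
    rw [← Real.log_rpow (by linarith), ← Real.log_mul hC.ne' (by positivity)]
    exact Real.log_le_log hg (h n (by omega))
  have h4 : Real.log (γ n) / Real.log n ≤ z := by
    rw [div_le_iff₀ hl]
    rw [div_lt_iff₀ hl] at hn
    linarith
  exact_mod_cast h4

lemma le_limsup_of_bound {γ : ℕ → ℕ} {c d : ℝ} (hc : 0 < c)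
    (h : ∃ᶠ n : ℕ in atTop, c * (n : ℝ) ^ d ≤ (γ n : ℝ)) :
    (d : EReal) ≤ limsup (fun n : ℕ => ((Real.log (γ n) / Real.log n : ℝ) : EReal)) atTop := by
  rw [← EReal.ge_of_forall_gt_iff_ge]
  intro z hz
  have hz' : z < d := by exact_mod_cast hz
  refine le_limsup_of_frequently_le ?_ (by isBoundedDefault)
  have h2 := (tendsto_const_div_log (Real.log c)).eventually (lt_mem_nhds (sub_neg.2 hz'))
  refine (h.and_eventually (h2.and (eventually_ge_atTop 2))).mono ?_
  rintro n ⟨hn, hn', hn2⟩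
  have hn1 : (1 : ℝ) < n := by exact_mod_cast hn2
  have hl : 0 < Real.log n := Real.log_pos hn1
  have h3 : Real.log c + d * Real.log n ≤ Real.log (γ n) := by
    rw [← Real.log_rpow (by linarith), ← Real.log_mul hc.ne' (by positivity)]
    exact Real.log_le_log (by positivity) hn
  have h4 : z ≤ Real.log (γ n) / Real.log n := by
    rw [le_div_iff₀ hl]
    rw [lt_div_iff₀ hl] at hn'
    linarith
  exact_mod_cast h4

lemma degree_eq_zero_of_finite {S : Finset (Equiv.Perm (List X))} {ξ : ℕ → X}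
    (h : {η | (schreier S).Reachable ξ η}.Finite) : degree S ξ = ((0 : ℝ) : EReal) := by
  obtain ⟨C, hC⟩ := growth_le_of_finite h
  apply le_antisymm
  · refine limsup_le_of_bound (one_le_growth S ξ) (C := C + 1) (by positivity) fun n _ => ?_
    have : (growth S ξ n : ℝ) ≤ C := by exact_mod_cast hC n
    simp only [Real.rpow_zero, mul_one]; linarith
  · refine le_limsup_of_bound (c := 1) one_pos (Frequently.of_forall fun n => ?_)
    simpa using one_le_growth S ξ n

lemma one_le_degree_of_infinite {S : Finset (Equiv.Perm (List X))} {ξ : ℕ → X}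
    (h : {η | (schreier S).Reachable ξ η}.Infinite) : ((1 : ℝ) : EReal) ≤ degree S ξ := by
  refine le_limsup_of_bound (c := 1) one_pos (Frequently.of_forall fun n => ?_)
  have := growth_ge_of_infinite h n
  simp only [Real.rpow_one, one_mul]
  exact_mod_cast (by omega : n ≤ growth S ξ n)

lemma SelfSimilar.map_nil {G : Subgroup (Equiv.Perm (List X))} (hG : SelfSimilar G)
    {g : Equiv.Perm (List X)} (hg : g ∈ G) : g [] = [] := by
  cases hv : g [] with
  | nil => rfl
  | cons x w =>
    obtain ⟨y, h, -, hh⟩ := hG g⁻¹ (G.inv_mem hg) x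
    have := hh w
    rw [← hv] at this
    simp at this

lemma SelfSimilar.append {G : Subgroup (Equiv.Perm (List X))} (hG : SelfSimilar G) (v : List X) :
    ∀ g ∈ G, (g v).length = v.length ∧ ∃ h ∈ G, ∀ w, g (v ++ w) = g v ++ h w := by
  induction v with
  | nil => intro g hg; exact ⟨by simp [hG.map_nil hg], g, hg, fun w => by simp [hG.map_nil hg]⟩
  | cons x v ih =>
    intro g hg
    obtain ⟨y, h, hh, e⟩ := hG g hg x
    obtain ⟨l, k, hk, e'⟩ := ih h hh
    refine ⟨by simp [e, l], k, hk, fun w => ?_⟩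
    rw [List.cons_append, e, e, e', List.cons_append]

lemma SelfSimilar.exists_sends {G : Subgroup (Equiv.Perm (List X))} (hG : SelfSimilar G)
    {g : Equiv.Perm (List X)} (hg : g ∈ G) (ξ : ℕ → X) : ∃ η, Sends g ξ η := by
  have : ∀ n, ∃ y, g (pre ξ (n + 1)) = g (pre ξ n) ++ [y] := by
    intro n
    obtain ⟨-, h, hh, e⟩ := hG.append (pre ξ n) g hg
    obtain ⟨y, k, hk, e'⟩ := hG h hh (ξ n)
    refine ⟨y, ?_⟩
    rw [pre_succ, e, e', hG.map_nil hk]
  choose η hη using this
  refine ⟨η, sends_iff.2 fun n => ?_⟩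
  induction n with
  | zero => simpa using hG.map_nil hg
  | succ n ih => rw [hη, ih, pre_succ]

lemma adj_or_eq_of_sends {S : Finset (Equiv.Perm (List X))} {s : Equiv.Perm (List X)}
    (hs : s ∈ S) {ξ η : ℕ → X} (h : Sends s ξ η) : (schreier S).Adj ξ η ∨ ξ = η := by
  by_cases e : ξ = η
  · exact Or.inr e
  · left
    simp only [schreier, SimpleGraph.fromRel_adj]
    exact ⟨e, Or.inl ⟨s, hs, h⟩⟩

lemma Sends.of_mul {g h : Equiv.Perm (List X)} {ξ η ζ : ℕ → X} (h1 : Sends (g * h) ξ η)
    (h2 : Sends h ξ ζ) : Sends g ζ η := by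
  refine sends_iff.2 fun n => ?_
  rw [← sends_iff.1 h2 n, ← sends_iff.1 h1 n]; rfl

lemma edist_le_of_sends {S : Finset (Equiv.Perm (List X))}
    (hG : SelfSimilar (Subgroup.closure (S : Set (Equiv.Perm (List X)))))
    (l : List (Equiv.Perm (List X))) (hl : ∀ s ∈ l, s ∈ S) {ξ η : ℕ → X}
    (h : Sends l.prod ξ η) : (schreier S).edist ξ η ≤ l.length := by
  induction l generalizing η with
  | nil =>
    have : ξ = η := eq_of_pre (n := 0) fun k _ => by simpa using sends_iff.1 h k
    simp [this]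
  | cons s l ih =>
    have hl' : ∀ t ∈ l, t ∈ S := fun t ht => hl t (List.mem_cons_of_mem _ ht)
    obtain ⟨ζ, hζ⟩ := hG.exists_sends (g := l.prod)
      (Subgroup.list_prod_mem _ fun t ht => Subgroup.subset_closure (hl' t ht)) ξ
    rw [List.prod_cons] at h
    exact ball_step (ih hl' hζ) (adj_or_eq_of_sends (hl s (by simp)) (h.of_mul hζ))

lemma reachable_of_sends {S : Finset (Equiv.Perm (List X))}
    (hG : SelfSimilar (Subgroup.closure (S : Set (Equiv.Perm (List X)))))
    {g : Equiv.Perm (List X)} (hg : g ∈ Subgroup.closure (S : Set (Equiv.Perm (List X)))) :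
    ∀ ξ η : ℕ → X, Sends g ξ η → (schreier S).Reachable ξ η := by
  induction hg using Subgroup.closure_induction with
  | mem s hs =>
    intro ξ η h
    rcases adj_or_eq_of_sends hs h with h | h
    · exact h.reachable
    · rw [h]
  | one =>
    intro ξ η h
    have : ξ = η := eq_of_pre (n := 0) fun k _ => by simpa using sends_iff.1 h k
    rw [this]
  | mul a b _ hb iha ihb =>
    intro ξ η h
    obtain ⟨ζ, hζ⟩ := hG.exists_sends hb ξ
    exact (ihb _ _ hζ).trans (iha _ _ (h.of_mul hζ))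
  | inv a _ iha =>
    intro ξ η h
    have := h.inv
    rw [inv_inv] at this
    exact (iha _ _ this).symm

lemma infinite_of_transitive {S : Finset (Equiv.Perm (List X))} [Nontrivial X]
    (hG : SelfSimilar (Subgroup.closure (S : Set (Equiv.Perm (List X)))))
    (hT : LevelTransitive (Subgroup.closure (S : Set (Equiv.Perm (List X))))) (ξ : ℕ → X) :
    {η | (schreier S).Reachable ξ η}.Infinite := by
  obtain ⟨a, b, hab⟩ := exists_pair_ne X
  have : ∀ n : ℕ, ∃ η, (schreier S).Reachable ξ η ∧ (∀ i < n, η i = a) ∧ η n = b := by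
    intro n
    obtain ⟨g, hg, e⟩ := hT (pre ξ (n + 1)) (pre (fun i => if i < n then a else b) (n + 1))
      (by simp)
    obtain ⟨η, hη⟩ := hG.exists_sends hg ξ
    have e' := pre_eq_iff.1 ((sends_iff.1 hη (n + 1)).symm.trans e)
    refine ⟨η, reachable_of_sends hG hg _ _ hη, fun i hi => ?_, ?_⟩
    · rw [e' i (by omega), if_pos hi]
    · rw [e' n (by omega), if_neg (lt_irrefl n)]
  choose f hf using this
  refine Set.infinite_of_injective_forall_mem (f := f) ?_ fun n => (hf n).1
  intro n k h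
  by_contra hne
  rcases lt_or_gt_of_ne hne with hlt | hlt
  · have h1 := (hf k).2.1 n hlt
    rw [← h, (hf n).2.2] at h1
    exact hab h1.symm
  · have h1 := (hf n).2.1 k hlt
    rw [h, (hf k).2.2] at h1
    exact hab h1.symm

/-- counting boxes -/
lemma ncard_box [DecidableEq X] (A : ℕ → Finset X) (n : ℕ) (ξ : ℕ → X) :
    {η : ℕ → X | (∀ i < n, η i ∈ A i) ∧ ∀ i, n ≤ i → η i = ξ i}.ncard =
      ∏ i ∈ Finset.range n, (A i).card ∧
    {η : ℕ → X | (∀ i < n, η i ∈ A i) ∧ ∀ i, n ≤ i → η i = ξ i}.Finite := by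
  let ex : (Fin n → X) → (ℕ → X) := fun f i => if h : i < n then f ⟨i, h⟩ else ξ i
  have hinj : Function.Injective ex := by
    intro f g h
    funext i
    have := congrFun h i
    simpa [ex, i.2] using this
  have : {η : ℕ → X | (∀ i < n, η i ∈ A i) ∧ ∀ i, n ≤ i → η i = ξ i} =
      ex '' (Fintype.piFinset fun i : Fin n => A i) := by
    ext η
    simp only [Set.mem_ofPred_eq, Set.mem_image, Finset.mem_coe, Fintype.mem_piFinset]
    constructor
    · rintro ⟨h1, h2⟩
      refine ⟨fun i => η i, fun i => h1 i i.2, ?_⟩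
      funext i
      by_cases hi : i < n
      · simp [ex, hi]
      · simp [ex, hi, h2 i (by omega)]
    · rintro ⟨f, hf, rfl⟩
      refine ⟨fun i hi => ?_, fun i hi => ?_⟩
      · simpa [ex, hi] using hf ⟨i, hi⟩
      · simp [ex, show ¬ i < n by omega]
  rw [this]
  refine ⟨?_, (Finset.finite_toSet _).image _⟩
  rw [Set.ncard_image_of_injective _ hinj, Set.ncard_coe_finset, Fintype.card_piFinset,
    Fin.prod_univ_eq_prod_range (fun i => (A i).card) n]

end Pool.Agent.Lib.MP_f10b34_al
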