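import Pool.Agent.Lib.MP_f10b34_al.System

set_option autoImplicit false

namespace Pool.Agent.Lib.MP_f10b34_al

open List (replicate)

/-- one step of the potential -/
def stepVal (K x : ℕ) (P Q : ℤ) : ℤ :=
  if K < x then 0 else (x : ℤ) * Q + (if x % 2 = 0 then P else Q - 1 - P)

/-- the potential of the first `j` letters -/
def phi (K : ℕ) {N : ℕ} (η : ℕ → Fin N) : ℕ → ℤ
  | 0 => 0
  | j + 1 => stepVal K (η j) (phi K η j) (((K : ℤ) + 1) ^ j)

variable {K m : ℕ}

lemma phi_bound {N : ℕ} (η : ℕ → Fin N) (j : ℕ) :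
    0 ≤ phi K η j ∧ phi K η j ≤ ((K : ℤ) + 1) ^ j - 1 := by
  induction j with
  | zero => simp [phi]
  | succ j ih =>
    have hQ : (0 : ℤ) < ((K : ℤ) + 1) ^ j := by positivity
    have hQ' : (0 : ℤ) < ((K : ℤ) + 1) ^ (j + 1) := by positivity
    simp only [phi, stepVal]
    split_ifs with h1 h2
    · omega
    · have : ((η j : ℕ) : ℤ) ≤ K := by exact_mod_cast not_lt.1 h1
      have h0 : (0 : ℤ) ≤ ((η j : ℕ) : ℤ) := by positivity
      rw [pow_succ]
      constructor <;> nlinarith [ih.1, ih.2]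
    · have : ((η j : ℕ) : ℤ) ≤ K := by exact_mod_cast not_lt.1 h1
      have h0 : (0 : ℤ) ≤ ((η j : ℕ) : ℤ) := by positivity
      rw [pow_succ]
      constructor <;> nlinarith [ih.1, ih.2]

lemma phi_F {N : ℕ} {η : ℕ → Fin N} {z : Fin N} (hz : InF K z) {j : ℕ}
    (h : ∀ i < j, η i = z) : phi K η j = 0 := by
  induction j with
  | zero => rfl
  | succ j ih =>
    simp only [phi, stepVal, h j (by omega), ih fun i hi => h i (by omega)]
    rcases hz with hz | hz
    · simp [hz]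
    · simp [hz]

lemma phi_K (hK : K % 2 = 0) {N : ℕ} {η : ℕ → Fin N} {z : Fin N} (hz : (z : ℕ) = K) {j : ℕ}
    (h : ∀ i < j, η i = z) : phi K η j = ((K : ℤ) + 1) ^ j - 1 := by
  induction j with
  | zero => simp [phi]
  | succ j ih =>
    simp only [phi, stepVal, h j (by omega), ih fun i hi => h i (by omega), hz, hK, lt_irrefl,
      if_true, if_false]
    ring

lemma stepVal_ok {z u v : ℕ} (h : Ok K z u v) {P Q : ℤ} (hF : InF K z → P = 0)
    (hE : z = K → P = Q - 1) : |stepVal K u P Q - stepVal K v P Q| ≤ 1 := by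
  rcases h with ⟨h1, h2, h3, -, -⟩ | ⟨h1, h2, rfl, h4⟩ | ⟨h1, h2, rfl, h4⟩
  · rw [hF h1]
    have : ∀ x, InF K x → stepVal K x 0 Q = 0 := by
      rintro x (hx | hx) <;> simp [stepVal, hx]
    simp [this u h2, this v h3]
  · rw [hF h1]
    unfold stepVal
    rw [if_neg (by omega), if_neg (by omega), if_neg (by omega), if_pos (by omega)]
    push_cast
    rw [abs_le]; constructor <;> linarith
  · rw [hE h1]
    unfold stepVal
    rw [if_neg (by omega), if_pos (by omega), if_neg (by omega), if_neg (by omega)]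
    push_cast
    rw [abs_le]; constructor <;> linarith

lemma phi_lip (hK : K % 2 = 0) {z u v : Fin (K + m)} (h : Ok K z u v) (η : ℕ → Fin (K + m))
    (j : ℕ) : |phi K (bd z (Equiv.swap u v) η) j - phi K η j| ≤ 1 := by
  induction j with
  | zero => simp [phi]
  | succ j ih =>
    by_cases hall : ∀ k < j, η k = z
    · have h2 : ∀ k < j, bd z (Equiv.swap u v) η k = z := by
        intro k hk
        simp only [bd]
        rw [if_pos fun i hi => hall i (by omega), hall k hk, swap_fix hK h]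
      have hz : InF K z ∨ (z : ℕ) = K := by unfold Ok at h; tauto
      have h3 : phi K (bd z (Equiv.swap u v) η) j = phi K η j := by
        rcases hz with hz | hz
        · rw [phi_F hz h2, phi_F hz hall]
        · rw [phi_K hK hz h2, phi_K hK hz hall]
      have h4 : bd z (Equiv.swap u v) η j = Equiv.swap u v (η j) := by
        simp only [bd]; rw [if_pos hall]
      have h5 := stepVal_ok h (P := phi K η j) (Q := ((K : ℤ) + 1) ^ j)
        (fun hz => phi_F hz hall) (fun hz => phi_K hK hz hall)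
      simp only [phi, h3, h4]
      by_cases e1 : η j = u
      · rw [e1, Equiv.swap_apply_left, abs_sub_comm]; exact h5
      by_cases e2 : η j = v
      · rw [e2, Equiv.swap_apply_right]; exact h5
      · rw [Equiv.swap_apply_of_ne_of_ne e1 e2]; simp
    · have h4 : bd z (Equiv.swap u v) η j = η j := by
        simp only [bd]; rw [if_neg hall]
      simp only [phi, h4, stepVal]
      rw [abs_le] at ih ⊢
      split_ifs <;> constructor <;> linarith [ih.1, ih.2]

lemma adj_gens (hK : K % 2 = 0) {η ζ : ℕ → Fin (K + m)} (h : (schreier (gens K m)).Adj η ζ) :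
    ∃ z u v : Fin (K + m), Ok K z u v ∧ ζ = bd z (Equiv.swap u v) η := by
  simp only [schreier, SimpleGraph.fromRel_adj] at h
  have key : ∀ s ∈ gens K m, Sends s η ζ →
      ∃ z u v : Fin (K + m), Ok K z u v ∧ ζ = bd z (Equiv.swap u v) η := by
    intro s hs h
    obtain ⟨z, u, v, ho, rfl⟩ := (mem_gens hK).1 hs
    exact ⟨z, u, v, ho, h.unique (sends_hp _ _ _ _)⟩
  rcases h.2 with ⟨s, hs, h⟩ | ⟨s, hs, h⟩
  · exact key s hs h
  · exact key _ (gens_inv hK s hs) h.inv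

lemma ball_inv (hK : K % 2 = 0) (hK2 : 2 ≤ K) {ξ : ℕ → Fin (K + m)} {j b : ℕ} (hjb : j + 1 ≤ b)
    (h1 : (ξ j : ℕ) ≤ 1) (h2 : ∀ i, j + 1 ≤ i → i < b → InF K (ξ i)) (h3 : (ξ b : ℕ) = 1)
    (r : ℕ) (hr : r < (K + 1) ^ j) : ∀ η, (schreier (gens K m)).edist ξ η ≤ r →
      phi K η (j + 1) ≤ phi K ξ (j + 1) + r ∧ (∀ i, j + 1 ≤ i → i < b → InF K (η i)) ∧
      ((η b : ℕ) = 1 ∨ (η b : ℕ) = 2) ∧ ∀ i, b + 1 ≤ i → η i = ξ i := by
  induction r with
  | zero =>
    intro η hη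
    have : ξ = η := by simpa using hη
    subst this
    exact ⟨by simp, h2, Or.inl h3, fun _ _ => rfl⟩
  | succ r ih =>
    intro η hη
    rcases ball_succ hη with h | ⟨ζ, h, hadj⟩
    · obtain ⟨a1, a2⟩ := ih (by omega) η h
      exact ⟨by push_cast; linarith, a2⟩
    obtain ⟨a1, a2, a3, a4⟩ := ih (by omega) ζ h
    obtain ⟨z, u, v, ho, rfl⟩ := adj_gens hK hadj
    have hl := abs_le.1 (phi_lip hK ho ζ (j + 1))
    refine ⟨by push_cast; linarith [hl.2], ?_⟩
    have hQ : (0 : ℤ) < ((K : ℤ) + 1) ^ j := by positivity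
    have hxi : phi K ξ (j + 1) ≤ 2 * ((K : ℤ) + 1) ^ j - 1 := by
      have := phi_bound (K := K) ξ j
      have h1' : ((ξ j : ℕ) : ℤ) ≤ 1 := by exact_mod_cast h1
      simp only [phi, stepVal]
      split_ifs <;> nlinarith [this.1, this.2]
    by_cases hz : (z : ℕ) = K
    · have hnot : ∀ i, j + 1 ≤ i → bd z (Equiv.swap u v) ζ i = ζ i := by
        intro i hi
        simp only [bd]
        refine if_neg fun hall => ?_
        have := phi_K hK hz (η := ζ) (j := j + 1) fun k hk => hall k (by omega)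
        have hr' : ((r : ℤ) + 1) < ((K : ℤ) + 1) ^ j := by exact_mod_cast hr
        have hK2' : (2 : ℤ) ≤ K := by exact_mod_cast hK2
        rw [pow_succ] at this
        nlinarith
      refine ⟨fun i hi hi' => ?_, ?_, fun i hi => ?_⟩
      · rw [hnot i hi]; exact a2 i hi hi'
      · rw [hnot b hjb]; exact a3
      · rw [hnot i (by omega)]; exact a4 i hi
    · have hzF : InF K z := by unfold Ok InF at *; omega
      have hsw : ∀ x : Fin (K + m), Equiv.swap u v x = x ∨ (x = u ∧ Equiv.swap u v x = v) ∨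
          (x = v ∧ Equiv.swap u v x = u) := by
        intro x
        by_cases e1 : x = u
        · exact Or.inr (Or.inl ⟨e1, by rw [e1, Equiv.swap_apply_left]⟩)
        by_cases e2 : x = v
        · exact Or.inr (Or.inr ⟨e2, by rw [e2, Equiv.swap_apply_right]⟩)
        · exact Or.inl (Equiv.swap_apply_of_ne_of_ne e1 e2)
      refine ⟨fun i hi hi' => ?_, ?_, fun i hi => ?_⟩
      · have := a2 i hi hi'
        simp only [bd]
        split_ifs
        · rcases hsw (ζ i) with e | ⟨e, e'⟩ | ⟨e, e'⟩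
          · rw [e]; exact this
          · rw [e']; rw [e] at this; unfold Ok InF at *; omega
          · rw [e']; rw [e] at this; unfold Ok InF at *; omega
        · exact this
      · simp only [bd]
        split_ifs
        · rcases hsw (ζ b) with e | ⟨e, e'⟩ | ⟨e, e'⟩
          · rw [e]; exact a3
          · rw [e']; rw [e] at a3; unfold Ok InF at *; omega
          · rw [e']; rw [e] at a3; unfold Ok InF at *; omega
        · exact a3
      · simp only [bd]
        rw [if_neg, a4 i hi]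
        intro hall
        rw [hall b (by omega)] at a3
        unfold InF at hzF; omega

open Classical in
/-- the set of fast letters -/
noncomputable def Fset (K m : ℕ) : Finset (Fin (K + m)) := Finset.univ.filter fun x => InF K x

lemma mem_Fset {x : Fin (K + m)} : x ∈ Fset K m ↔ InF K x := by simp [Fset]

lemma card_Fset (hm1 : 1 ≤ m) : (Fset K m).card = m := by
  have : (Fset K m).map Fin.valEmbedding = insert 0 (Finset.Ico (K + 1) (K + m)) := by
    ext x
    simp only [Finset.mem_map, mem_Fset, Fin.valEmbedding_apply, Finset.mem_insert,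
      Finset.mem_Ico, InF]
    constructor
    · rintro ⟨y, hy, rfl⟩
      have := y.2
      omega
    · intro h
      exact ⟨⟨x, by omega⟩, by simp; omega, rfl⟩
  rw [← Finset.card_map, this, Finset.card_insert_of_notMem (by simp), Nat.card_Ico]
  omega

lemma prod_box (hm1 : 1 ≤ m) (T : Finset (Fin (K + m))) (j k : ℕ) :
    ∏ i ∈ Finset.range (j + k),
      (if i < j then Finset.univ else if i < j + k then Fset K m else T).card =
      (K + m) ^ j * m ^ k := by
  rw [Finset.prod_range_add]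
  congr 1
  · rw [Finset.prod_congr rfl (g := fun _ => K + m) fun i hi => by
      simp [Finset.mem_range.1 hi]]
    simp
  · rw [Finset.prod_congr rfl (g := fun _ => m) fun i hi => by
      simp [Finset.mem_range.1 hi, card_Fset hm1]]
    simp

lemma growth_upper (hK : K % 2 = 0) (hK2 : 2 ≤ K) (hm1 : 1 ≤ m) {ξ : ℕ → Fin (K + m)} {j k : ℕ}
    (h1 : (ξ j : ℕ) ≤ 1) (h2 : ∀ i, j + 1 ≤ i → i < j + 1 + k → InF K (ξ i))
    (h3 : (ξ (j + 1 + k) : ℕ) = 1) (r : ℕ) (hr : r < (K + 1) ^ j) :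
    growth (gens K m) ξ r ≤ (K + m) ^ (j + 1) * m ^ k * 2 := by
  obtain ⟨e, hfin⟩ := ncard_box (fun i => if i < j + 1 then Finset.univ else
    if i < j + 1 + k then Fset K m else {⟨1, by omega⟩, ⟨2, by omega⟩}) (j + 1 + k + 1) ξ
  rw [Finset.prod_range_succ, prod_box hm1] at e
  refine (Set.ncard_le_ncard ?_ hfin).trans (e.le.trans (Nat.mul_le_mul_left _ ?_))
  · intro η hη
    obtain ⟨-, a2, a3, a4⟩ := ball_inv hK hK2 (by omega) h1 h2 h3 r hr η hη
    refine ⟨fun i hi => ?_, a4⟩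
    split_ifs with c1 c2
    · simp
    · exact mem_Fset.2 (a2 i (by omega) c2)
    · have : i = j + 1 + k := by omega
      subst this
      simpa [Fin.ext_iff] using a3
  · rw [if_neg (by omega), if_neg (by omega)]
    exact Finset.card_le_two

lemma growth_lower (hK : K % 2 = 0) (hK2 : 2 ≤ K) (hm1 : 1 ≤ m) (hm : m ≠ 2)
    {ξ : ℕ → Fin (K + m)} {j k : ℕ} (h2 : ∀ i, j ≤ i → i < j + k → InF K (ξ i)) :
    (K + m) ^ j * m ^ k ≤ growth (gens K m) ξ (2 * (3 * (K + 1) ^ j + 2 ^ (j + k))) := by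
  obtain ⟨e, -⟩ := ncard_box (fun i => if i < j then Finset.univ else
    if i < j + k then Fset K m else ∅) (j + k) ξ
  rw [prod_box hm1] at e
  rw [← e]
  refine Set.ncard_le_ncard ?_ (ball_finite _ _ _)
  rintro η ⟨a1, a2⟩
  have b1 := mv_mixed hK hK2 hm1 hm ξ j k h2 ⟨0, by omega⟩ (Or.inl rfl)
  have b2 := mv_mixed hK hK2 hm1 hm η j k (fun i hi hi' => by
    have := a1 i hi'
    rw [if_neg (by omega), if_pos hi'] at this
    exact mem_Fset.1 this) ⟨0, by omega⟩ (Or.inl rfl)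
  have := (b1.trans (b2.symm (gens_inv hK))).edist_le (selfSimilar_of_hp (gens_hp hK)) a2
  rw [two_mul]
  exact this

/-- starting points of the windows -/
noncomputable def JJ (t : ℝ) : ℕ → ℕ
  | 0 => 0
  | i + 1 => JJ t i + ⌊t * JJ t i⌋₊ + 1

lemma JJ_strictMono (t : ℝ) : StrictMono (JJ t) :=
  strictMono_nat_of_lt_succ fun i => by simp only [JJ]; omega

theorem degree_gens (hK : K % 2 = 0) (hK2 : 2 ≤ K) (hm1 : 1 ≤ m) (hm : m ≠ 2) {t d : ℝ}
    (ht : 0 ≤ t) (hd0 : 0 ≤ d) (hd : ((K : ℝ) + m) * (m : ℝ) ^ t = ((K : ℝ) + 1) ^ d)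
    (hL : (2 : ℝ) ^ (1 + t) ≤ (K : ℝ) + 1) :
    ∃ ξ : ℕ → Fin (K + m), degree (gens K m) ξ = (d : EReal) := by
  classical
  let ξ : ℕ → Fin (K + m) := fun n =>
    if ∃ i, n + 1 = JJ t (i + 1) then ⟨1, by omega⟩ else ⟨0, by omega⟩
  have hx1 : ∀ n, (ξ n : ℕ) ≤ 1 := by
    intro n; simp only [ξ]; split_ifs <;> simp
  have hx2 : ∀ i n, JJ t i ≤ n → n < JJ t i + ⌊t * JJ t i⌋₊ → InF K (ξ n) := by
    intro i n h1 h2
    left
    simp only [ξ]
    rw [if_neg]
    rintro ⟨k, hk⟩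
    have a1 : i < k + 1 := (JJ_strictMono t).lt_iff_lt.1 (by omega)
    have a2 : k + 1 < i + 1 := (JJ_strictMono t).lt_iff_lt.1 (by
      rw [← hk]; simp only [JJ]; omega)
    omega
  have hx3 : ∀ i, (ξ (JJ t i + ⌊t * JJ t i⌋₊) : ℕ) = 1 := by
    intro i
    simp only [ξ]
    rw [if_pos ⟨i, rfl⟩]
  have hmR : (1 : ℝ) ≤ m := by exact_mod_cast hm1
  have hLR : (0 : ℝ) < (K : ℝ) + 1 := by positivity
  have hpow : ∀ j : ℕ, ((K : ℝ) + m) ^ j * (m : ℝ) ^ (t * j) = (((K : ℝ) + 1) ^ j) ^ d := by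
    intro j
    rw [Real.rpow_mul (by positivity), Real.rpow_natCast, ← mul_pow, hd,
      ← Real.rpow_natCast, ← Real.rpow_mul hLR.le, mul_comm, Real.rpow_mul hLR.le,
      Real.rpow_natCast]
  refine ⟨ξ, le_antisymm ?_ ?_⟩
  · refine limsup_le_of_bound (one_le_growth _ _) (C := 2 * (((K : ℝ) + 1) ^ 2) ^ d)
      (by positivity) fun r hr => ?_
    obtain ⟨j, hj⟩ : ∃ j, j = Nat.log (K + 1) r := ⟨_, rfl⟩
    have r1 : (K + 1) ^ j ≤ r := hj ▸ Nat.pow_log_le_self _ (by omega)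
    have r2 : r < (K + 1) ^ (j + 1) := hj ▸ Nat.lt_pow_succ_log_self (by omega) _
    have hex : ∃ i, j + 2 < JJ t (i + 1) :=
      ⟨j + 2, lt_of_lt_of_le (Nat.lt_succ_self _) ((JJ_strictMono t).id_le (j + 2 + 1))⟩
    obtain ⟨i, i1, i2⟩ : ∃ i, JJ t i ≤ j + 2 ∧ j + 2 < JJ t (i + 1) := by
      refine ⟨Nat.find hex, ?_, Nat.find_spec hex⟩
      rcases h0 : Nat.find hex with _ | k
      · simp [JJ]
      · exact not_lt.1 (Nat.find_min hex (by omega))
    simp only [JJ] at i2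
    obtain ⟨k, hk⟩ : ∃ k, JJ t i + ⌊t * JJ t i⌋₊ = j + 1 + 1 + k :=
      ⟨JJ t i + ⌊t * JJ t i⌋₊ - (j + 2), by omega⟩
    have hu := growth_upper hK hK2 hm1 (ξ := ξ) (j := j + 1) (k := k) (hx1 _)
      (fun n h1 h2 => hx2 i n (by omega) (by omega)) (by rw [← hk]; exact hx3 i) r r2
    have hkt : (k : ℝ) ≤ t * (j + 2 : ℕ) := by
      have a1 : k ≤ ⌊t * JJ t i⌋₊ := by omega
      have a2 : (⌊t * JJ t i⌋₊ : ℝ) ≤ t * JJ t i := Nat.floor_le (by positivity)
      have a3 : (JJ t i : ℝ) ≤ (j + 2 : ℕ) := by exact_mod_cast i1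
      calc (k : ℝ) ≤ ⌊t * JJ t i⌋₊ := by exact_mod_cast a1
        _ ≤ t * JJ t i := a2
        _ ≤ _ := mul_le_mul_of_nonneg_left a3 ht
    have b1 : (m : ℝ) ^ k ≤ (m : ℝ) ^ (t * (j + 2 : ℕ)) := by
      rw [← Real.rpow_natCast]
      exact Real.rpow_le_rpow_of_exponent_le hmR hkt
    have b2 : (((K : ℝ) + 1) ^ j) ^ d ≤ (r : ℝ) ^ d :=
      Real.rpow_le_rpow (by positivity) (by exact_mod_cast r1) hd0
    calc (growth (gens K m) ξ r : ℝ) ≤ ((K : ℝ) + m) ^ (j + 2) * (m : ℝ) ^ k * 2 := by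
          exact_mod_cast hu
      _ ≤ ((K : ℝ) + m) ^ (j + 2) * (m : ℝ) ^ (t * (j + 2 : ℕ)) * 2 := by gcongr
      _ = 2 * (((K : ℝ) + 1) ^ 2) ^ d * (((K : ℝ) + 1) ^ j) ^ d := by
          rw [hpow, pow_add, Real.mul_rpow (by positivity) (by positivity)]; ring
      _ ≤ _ := by gcongr
  · refine le_limsup_of_bound (c := 1 / (m * (8 : ℝ) ^ d)) (by positivity) ?_
    rw [Filter.frequently_atTop]
    intro a
    obtain ⟨j, hj⟩ : ∃ j, j = JJ t a := ⟨_, rfl⟩
    obtain ⟨k, hk⟩ : ∃ k, k = ⌊t * j⌋₊ := ⟨_, rfl⟩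
    have hl := growth_lower hK hK2 hm1 hm (ξ := ξ) (j := j) (k := k)
      (fun n h1 h2 => hx2 a n (by omega) (by rw [← hj, ← hk]; exact h2))
    refine ⟨2 * (3 * (K + 1) ^ j + 2 ^ (j + k)), ?_, ?_⟩
    · have a1 : a ≤ j := hj ▸ (JJ_strictMono t).id_le a
      have a2 : j + k < 2 ^ (j + k) := Nat.lt_two_pow_self
      omega
    · have k1 : (k : ℝ) ≤ t * j := hk ▸ Nat.floor_le (by positivity)
      have k2 : t * j < k + 1 := hk ▸ Nat.lt_floor_add_one _
      have b1 : (2 : ℝ) ^ (j + k) ≤ ((K : ℝ) + 1) ^ j := by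
        calc (2 : ℝ) ^ (j + k) = (2 : ℝ) ^ ((j + k : ℕ) : ℝ) := (Real.rpow_natCast _ _).symm
          _ ≤ (2 : ℝ) ^ ((1 + t) * j) :=
            Real.rpow_le_rpow_of_exponent_le (by norm_num) (by push_cast; linarith)
          _ = ((2 : ℝ) ^ (1 + t)) ^ j := by
            rw [Real.rpow_mul (by norm_num), Real.rpow_natCast]
          _ ≤ _ := by gcongr
      have b2 : ((2 * (3 * (K + 1) ^ j + 2 ^ (j + k)) : ℕ) : ℝ) ^ d ≤
          (8 : ℝ) ^ d * (((K : ℝ) + 1) ^ j) ^ d := by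
        rw [← Real.mul_rpow (by norm_num) (by positivity)]
        refine Real.rpow_le_rpow (by positivity) ?_ hd0
        push_cast; linarith
      have b3 : (m : ℝ) ^ (t * j) ≤ (m : ℝ) ^ k * m := by
        rw [← pow_succ, ← Real.rpow_natCast]
        exact Real.rpow_le_rpow_of_exponent_le hmR (by push_cast; linarith)
      have b4 : ((K : ℝ) + m) ^ j * (m : ℝ) ^ k ≤
          growth (gens K m) ξ (2 * (3 * (K + 1) ^ j + 2 ^ (j + k))) := by exact_mod_cast hl
      refine le_trans ?_ b4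
      calc 1 / (m * (8 : ℝ) ^ d) * ((2 * (3 * (K + 1) ^ j + 2 ^ (j + k)) : ℕ) : ℝ) ^ d
          ≤ 1 / (m * (8 : ℝ) ^ d) * ((8 : ℝ) ^ d * (((K : ℝ) + 1) ^ j) ^ d) := by gcongr
        _ = 1 / m * (((K : ℝ) + m) ^ j * (m : ℝ) ^ (t * j)) := by rw [hpow]; field_simp
        _ ≤ 1 / m * (((K : ℝ) + m) ^ j * ((m : ℝ) ^ k * m)) := by gcongr
        _ = _ := by field_simp

theorem exists_params {d : ℝ} (hd : 1 ≤ d) : ∃ K m : ℕ, ∃ t : ℝ, K % 2 = 0 ∧ 2 ≤ K ∧ 1 ≤ m ∧
    m ≠ 2 ∧ 0 ≤ t ∧ ((K : ℝ) + m) * (m : ℝ) ^ t = ((K : ℝ) + 1) ^ d ∧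
    (2 : ℝ) ^ (1 + t) ≤ (K : ℝ) + 1 := by
  rcases hd.eq_or_lt with rfl | hd
  · refine ⟨2, 1, 0, rfl, le_rfl, le_rfl, by norm_num, le_rfl, by norm_num, by norm_num⟩
  obtain ⟨m, hm⟩ := exists_nat_ge (max 3 ((2 : ℝ) ^ d))
  have hm3 : (3 : ℝ) ≤ m := (le_max_left _ _).trans hm
  have hm2 : (2 : ℝ) ^ d ≤ m := (le_max_right _ _).trans hm
  have hm3' : 3 ≤ m := by exact_mod_cast hm3
  -- choose K
  obtain ⟨k, hk⟩ : ∃ k : ℕ, 1 ≤ k ∧ (m : ℝ) ≤ ((2 * k : ℕ) + 1 : ℝ) ^ (d - 1) := by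
    have h1 : Filter.Tendsto (fun k : ℕ => ((2 * k : ℕ) + 1 : ℝ) ^ (d - 1)) Filter.atTop
        Filter.atTop := by
      refine (tendsto_rpow_atTop (by linarith)).comp ?_
      refine Filter.tendsto_atTop_mono (fun k => ?_) tendsto_natCast_atTop_atTop
      push_cast
      have : (0 : ℝ) ≤ k := by positivity
      linarith
    obtain ⟨k, hk1, hk2⟩ := ((Filter.eventually_ge_atTop 1).and (h1.eventually_ge_atTop m)).exists
    exact ⟨k, hk1, hk2⟩
  obtain ⟨K, hK⟩ : ∃ K, K = 2 * k := ⟨_, rfl⟩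
  rw [← hK] at hk
  have hK0 : (0 : ℝ) ≤ K := by positivity
  have hL : (0 : ℝ) < (K : ℝ) + 1 := by positivity
  have hN : (0 : ℝ) < (K : ℝ) + m := by positivity
  have hlm : 0 < Real.log m := Real.log_pos (by linarith)
  have hle : (K : ℝ) + m ≤ ((K : ℝ) + 1) ^ d := by
    have : ((K : ℝ) + 1) ^ d = ((K : ℝ) + 1) ^ (d - 1) * ((K : ℝ) + 1) := by
      rw [← Real.rpow_add_one hL.ne']; ring_nf
    rw [this]
    nlinarith [hk.2]
  have hle' : Real.log ((K : ℝ) + m) ≤ d * Real.log ((K : ℝ) + 1) := by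
    rw [← Real.log_rpow hL]; exact Real.log_le_log hN hle
  refine ⟨K, m, (d * Real.log ((K : ℝ) + 1) - Real.log ((K : ℝ) + m)) / Real.log m, by omega,
    by omega, by omega, by omega, div_nonneg (by linarith) hlm.le, ?_, ?_⟩
  · rw [Real.rpow_def_of_pos (by linarith), Real.rpow_def_of_pos hL, mul_div_cancel₀ _ hlm.ne',
      Real.exp_sub, Real.exp_log hN, mul_comm d]
    field_simp
  · rw [Real.rpow_def_of_pos (by norm_num), ← Real.le_log_iff_exp_le hL]
    have a1 : Real.log m ≤ Real.log ((K : ℝ) + m) := Real.log_le_log (by linarith) (by linarith)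
    have a2 : d * Real.log 2 ≤ Real.log m := by
      rw [← Real.log_rpow (by norm_num)]; exact Real.log_le_log (by positivity) hm2
    have a3 : 0 ≤ Real.log ((K : ℝ) + 1) := Real.log_nonneg (by linarith)
    have a4 : 0 < Real.log 2 := Real.log_pos (by norm_num)
    have a5 : 1 + (d * Real.log ((K : ℝ) + 1) - Real.log ((K : ℝ) + m)) / Real.log m ≤
        d * Real.log ((K : ℝ) + 1) / Real.log m := by
      rw [le_div_iff₀ hlm, add_mul, div_mul_cancel₀ _ hlm.ne']; linarith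
    refine (mul_le_mul_of_nonneg_left a5 a4.le).trans ?_
    rw [← mul_div_assoc, div_le_iff₀ hlm]
    nlinarith

theorem realize {d : ℝ} (hd : 1 ≤ d) : ∃ (n : ℕ) (S : Finset (Equiv.Perm (List (Fin n))))
    (ξ : ℕ → Fin n), 2 ≤ n ∧
    SelfSimilar (Subgroup.closure (S : Set (Equiv.Perm (List (Fin n))))) ∧
    Contracting (Subgroup.closure (S : Set (Equiv.Perm (List (Fin n))))) ∧
    LevelTransitive (Subgroup.closure (S : Set (Equiv.Perm (List (Fin n))))) ∧
    SelfReplicating (Subgroup.closure (S : Set (Equiv.Perm (List (Fin n))))) ∧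
    degree S ξ = (d : EReal) := by
  obtain ⟨K, m, t, hK, hK2, hm1, hm, ht, h1, h2⟩ := exists_params hd
  obtain ⟨ξ, hξ⟩ := degree_gens hK hK2 hm1 hm ht (by linarith) h1 h2
  exact ⟨K + m, gens K m, ξ, by omega, selfSimilar_of_hp (gens_hp hK),
    contracting_of_hp (gens_hp hK), gens_levelTransitive hK hK2 hm1 hm,
    gens_selfReplicating hK hK2 hm1 hm, hξ⟩

end Pool.Agent.Lib.MP_f10b34_al
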