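import Pool.Agent.Lib.MP_f10b34_al.General

set_option autoImplicit false

namespace Pool.Agent.Lib.MP_f10b34_al

variable {X : Type} [DecidableEq X]

/-- skip the initial run of letters `z`, then apply `σ` to the next letter. -/
def hn (z : X) (σ : Equiv.Perm X) : List X → List X
  | [] => []
  | x :: w => if x = z then x :: hn z σ w else σ x :: w

lemma hn_hn (z : X) (σ τ : Equiv.Perm X) (hτ : τ z = z) (w : List X) :
    hn z σ (hn z τ w) = hn z (σ * τ) w := by
  induction w with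
  | nil => rfl
  | cons x w ih =>
    by_cases h : x = z
    · simp [hn, h, ih]
    · have : τ x ≠ z := fun e => h (τ.injective (e.trans hτ.symm))
      simp [hn, h, this]

lemma hn_one (z : X) (w : List X) : hn z 1 w = w := by
  induction w with
  | nil => rfl
  | cons x w ih => by_cases h : x = z <;> simp [hn, h, ih]

omit [DecidableEq X] in
lemma inv_fix {σ : Equiv.Perm X} {z : X} (h : σ z = z) : σ⁻¹ z = z := by
  rw [Equiv.Perm.inv_eq_iff_eq, h]

/-- the tree automorphism given by `hn`. -/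
def hp (z : X) (σ : Equiv.Perm X) (h : σ z = z) : Equiv.Perm (List X) where
  toFun := hn z σ
  invFun := hn z σ⁻¹
  left_inv w := by rw [hn_hn _ _ _ h, inv_mul_cancel, hn_one]
  right_inv w := by rw [hn_hn _ _ _ (inv_fix h), mul_inv_cancel, hn_one]

lemma hp_apply (z : X) (σ : Equiv.Perm X) (h : σ z = z) (w : List X) :
    hp z σ h w = hn z σ w := rfl

lemma hp_cons_eq (z : X) (σ : Equiv.Perm X) (h : σ z = z) (w : List X) :
    hp z σ h (z :: w) = z :: hp z σ h w := by simp [hp_apply, hn]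

lemma hp_cons_ne {z x : X} (σ : Equiv.Perm X) (h : σ z = z) (hx : x ≠ z) (w : List X) :
    hp z σ h (x :: w) = σ x :: w := by simp [hp_apply, hn, hx]

lemma hp_mul (z : X) (σ τ : Equiv.Perm X) (h : σ z = z) (h' : τ z = z) :
    hp z σ h * hp z τ h' = hp z (σ * τ) (by simp [h, h']) := by
  ext1 w
  exact hn_hn z σ τ h' w

lemma hp_inv (z : X) (σ : Equiv.Perm X) (h : σ z = z) :
    (hp z σ h)⁻¹ = hp z σ⁻¹ (inv_fix h) := rfl

lemma hp_replicate {z x : X} (σ : Equiv.Perm X) (h : σ z = z) (hx : x ≠ z) (n : ℕ) (w : List X) :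
    hp z σ h (List.replicate n z ++ x :: w) = List.replicate n z ++ σ x :: w := by
  induction n with
  | zero => simpa using hp_cons_ne σ h hx w
  | succ n ih => rw [List.replicate_succ, List.cons_append, hp_cons_eq, ih, List.cons_append]

/-- the boundary action of `hp`. -/
def bd (z : X) (σ : Equiv.Perm X) (ξ : ℕ → X) : ℕ → X :=
  fun n => if ∀ k < n, ξ k = z then σ (ξ n) else ξ n

lemma sends_hp (z : X) (σ : Equiv.Perm X) (h : σ z = z) (ξ : ℕ → X) :
    Sends (hp z σ h) ξ (bd z σ ξ) := by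
  refine sends_iff.2 fun n => ?_
  induction n generalizing ξ with
  | zero => rfl
  | succ n ih =>
    rw [pre_succ', pre_succ']
    by_cases h0 : ξ 0 = z
    · rw [h0, hp_cons_eq, ih]
      congr 1
      · simp [bd, h0, h]
      · congr 1
        funext i
        simp only [bd]
        refine if_congr ⟨fun hh k hk => ?_, fun hh k hk => hh (k + 1) (by omega)⟩ rfl rfl
        cases k with
        | zero => exact h0
        | succ k => exact hh k (by omega)
    · rw [hp_cons_ne _ _ h0]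
      congr 1
      congr 1
      funext i
      simp only [bd]
      rw [if_neg fun hh => h0 (hh 0 (by omega))]

/-- syllables -/
def Syl (G : Subgroup (Equiv.Perm (List X))) (g : Equiv.Perm (List X)) : Prop :=
  g ∈ G ∧ (g = 1 ∨ ∃ z σ h, g = hp z σ h)

variable {G : Subgroup (Equiv.Perm (List X))}

lemma Syl.one : Syl G 1 := ⟨G.one_mem, Or.inl rfl⟩

lemma Syl.inv {g : Equiv.Perm (List X)} (h : Syl G g) : Syl G g⁻¹ := by
  refine ⟨G.inv_mem h.1, ?_⟩
  rcases h.2 with rfl | ⟨z, σ, hσ, rfl⟩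
  · left; simp
  · right; exact ⟨z, σ⁻¹, _, hp_inv z σ hσ⟩

lemma Syl.sec {s : Equiv.Perm (List X)} (h : Syl G s) (x : X) :
    ∃ y u, Syl G u ∧ ∀ w, s (x :: w) = y :: u w := by
  rcases h.2 with rfl | ⟨z, σ, hσ, rfl⟩
  · exact ⟨x, 1, Syl.one, fun w => rfl⟩
  · by_cases hx : x = z
    · subst hx
      exact ⟨x, _, h, hp_cons_eq x σ hσ⟩
    · exact ⟨σ x, 1, Syl.one, hp_cons_ne σ hσ hx⟩

lemma Syl.sec2 {s t : Equiv.Perm (List X)} (hs : Syl G s) (ht : Syl G t) (x : X) :
    ∃ y u, Syl G u ∧ ∀ w, s (t (x :: w)) = y :: u w := by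
  rcases ht.2 with rfl | ⟨z', τ, hτ, rfl⟩
  · exact hs.sec x
  by_cases hx : x = z'
  · subst hx
    rcases hs.2 with rfl | ⟨z, σ, hσ, rfl⟩
    · exact ht.sec x
    by_cases hz : x = z
    · subst hz
      refine ⟨x, hp x σ hσ * hp x τ hτ, ⟨G.mul_mem hs.1 ht.1, Or.inr ⟨_, _, _, hp_mul _ _ _ _ _⟩⟩,
        fun w => ?_⟩
      rw [hp_cons_eq, hp_cons_eq]; rfl
    · refine ⟨σ x, _, ht, fun w => ?_⟩
      rw [hp_cons_eq, hp_cons_ne _ _ hz]
  · obtain ⟨y, u, hu, e⟩ := hs.sec (τ x)
    exact ⟨y, u, hu, fun w => by rw [hp_cons_ne _ _ hx, e]⟩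

lemma sec_list (n : ℕ) : ∀ l : List (Equiv.Perm (List X)), l.length ≤ 2 * n →
    (∀ s ∈ l, Syl G s) → ∀ x : X, ∃ y, ∃ l' : List (Equiv.Perm (List X)), l'.length ≤ n ∧
      (∀ s ∈ l', Syl G s) ∧ ∀ w, l.prod (x :: w) = y :: l'.prod w := by
  induction n with
  | zero =>
    intro l hl _ x
    have : l = [] := List.length_eq_zero_iff.1 (by omega)
    subst this
    exact ⟨x, [], le_rfl, by simp, fun w => rfl⟩
  | succ n ih =>
    intro l hl hs x
    match l, hl, hs with
    | [], _, _ => exact ⟨x, [], by simp, by simp, fun w => rfl⟩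
    | [s], _, hs =>
      obtain ⟨y, u, hu, e⟩ := (hs s (by simp)).sec x
      exact ⟨y, [u], by simp, by simpa using hu, fun w => by simpa using e w⟩
    | s :: t :: l, hl, hs =>
      obtain ⟨y, l', h1, h2, e⟩ := ih l (by simp at hl; omega)
        (fun a ha => hs a (by simp [ha])) x
      obtain ⟨y', u, hu, e'⟩ := (hs s (by simp)).sec2 (hs t (by simp)) y
      refine ⟨y', u :: l', by simp; omega, ?_, fun w => ?_⟩
      · intro a ha
        rcases List.mem_cons.1 ha with rfl | ha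
        · exact hu
        · exact h2 a ha
      · simp only [List.prod_cons, Equiv.Perm.mul_apply, e, e']

lemma exists_list {S : Finset (Equiv.Perm (List X))} (hS : ∀ s ∈ S, ∃ z σ h, s = hp z σ h)
    {g : Equiv.Perm (List X)} (hg : g ∈ Subgroup.closure (S : Set (Equiv.Perm (List X)))) :
    ∃ l : List (Equiv.Perm (List X)),
      (∀ s ∈ l, Syl (Subgroup.closure (S : Set (Equiv.Perm (List X)))) s) ∧ l.prod = g := by
  induction hg using Subgroup.closure_induction with
  | mem s hs => exact ⟨[s], by simpa using ⟨Subgroup.subset_closure hs, Or.inr (hS s hs)⟩, by simp⟩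
  | one => exact ⟨[], by simp, rfl⟩
  | mul a b _ _ iha ihb =>
    obtain ⟨l, h1, rfl⟩ := iha
    obtain ⟨l', h2, rfl⟩ := ihb
    refine ⟨l ++ l', fun s hs => ?_, by simp⟩
    rcases List.mem_append.1 hs with h | h
    · exact h1 s h
    · exact h2 s h
  | inv a _ iha =>
    obtain ⟨l, h1, rfl⟩ := iha
    refine ⟨(l.map fun x => x⁻¹).reverse, fun s hs => ?_, (List.prod_inv_reverse l).symm⟩
    simp only [List.mem_reverse, List.mem_map] at hs
    obtain ⟨t, ht, rfl⟩ := hs
    exact (h1 t ht).inv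

theorem selfSimilar_of_hp {S : Finset (Equiv.Perm (List X))}
    (hS : ∀ s ∈ S, ∃ z σ h, s = hp z σ h) :
    SelfSimilar (Subgroup.closure (S : Set (Equiv.Perm (List X)))) := by
  intro g hg x
  obtain ⟨l, h1, rfl⟩ := exists_list hS hg
  obtain ⟨y, l', -, h2, e⟩ := sec_list l.length l (by omega) h1 x
  exact ⟨y, l'.prod, Subgroup.list_prod_mem _ fun s hs => (h2 s hs).1, e⟩

lemma Syl.sec_word (v : List X) : ∀ s : Equiv.Perm (List X), Syl G s →
    ∃ u, Syl G u ∧ ∀ w, s (v ++ w) = s v ++ u w := by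
  induction v with
  | nil =>
    intro s hs
    refine ⟨s, hs, fun w => ?_⟩
    have : s [] = [] := by
      rcases hs.2 with rfl | ⟨z, σ, h, rfl⟩ <;> rfl
    simp [this]
  | cons x v ih =>
    intro s hs
    obtain ⟨y, u, hu, e⟩ := hs.sec x
    obtain ⟨u', hu', e'⟩ := ih u hu
    exact ⟨u', hu', fun w => by rw [List.cons_append, e, e, e', List.cons_append]⟩

lemma sec_pow (k : ℕ) : ∀ l : List (Equiv.Perm (List X)), l.length ≤ 2 ^ k →
    (∀ s ∈ l, Syl G s) → ∀ v : List X, k ≤ v.length →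
      ∃ u, Syl G u ∧ ∀ w, l.prod (v ++ w) = l.prod v ++ u w := by
  induction k with
  | zero =>
    intro l hl hs v _
    match l, hl, hs with
    | [], _, _ => exact ⟨1, Syl.one, fun w => rfl⟩
    | [s], _, hs => simpa using Syl.sec_word v s (hs s (by simp))
    | s :: t :: l, hl, _ => simp at hl
  | succ k ih =>
    intro l hl hs v hv
    match v, hv with
    | x :: v, hv =>
      obtain ⟨y, l', h1, h2, e⟩ := sec_list (2 ^ k) l (by rw [pow_succ] at hl; omega) hs x
      obtain ⟨u, hu, e'⟩ := ih l' h1 h2 v (by simpa using hv)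
      exact ⟨u, hu, fun w => by rw [List.cons_append, e, e, e', List.cons_append]⟩

theorem contracting_of_hp [Finite X] {S : Finset (Equiv.Perm (List X))}
    (hS : ∀ s ∈ S, ∃ z σ h, s = hp z σ h) :
    Contracting (Subgroup.closure (S : Set (Equiv.Perm (List X)))) := by
  have hfin : {g | Syl (Subgroup.closure (S : Set (Equiv.Perm (List X)))) g}.Finite := by
    refine ((Set.finite_range fun p : {p : X × Equiv.Perm X // p.2 p.1 = p.1} =>
      hp p.1.1 p.1.2 p.2).insert 1).subset ?_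
    rintro g ⟨-, rfl | ⟨z, σ, h, rfl⟩⟩
    · exact Set.mem_insert _ _
    · exact Set.mem_insert_of_mem _ ⟨⟨(z, σ), h⟩, rfl⟩
  refine ⟨hfin.toFinset, fun h hh => (hfin.mem_toFinset.1 hh).1, fun g hg => ?_⟩
  obtain ⟨l, h1, rfl⟩ := exists_list hS hg
  refine ⟨l.length, fun v hv => ?_⟩
  obtain ⟨u, hu, e⟩ := sec_pow l.length l (Nat.lt_two_pow_self).le h1 v hv.le
  exact ⟨u, hfin.mem_toFinset.2 hu, e⟩

/-- `v` is moved to `v'` by at most `k` generators, without changing what follows. -/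
def Mv (S : Finset (Equiv.Perm (List X))) (k : ℕ) (v v' : List X) : Prop :=
  ∃ l : List (Equiv.Perm (List X)), l.length ≤ k ∧ (∀ s ∈ l, s ∈ S) ∧
    ∀ w, l.prod (v ++ w) = v' ++ w

variable {S : Finset (Equiv.Perm (List X))}

omit [DecidableEq X] in
lemma Mv.refl (k : ℕ) (v : List X) : Mv S k v v := ⟨[], by simp, by simp, fun w => rfl⟩

omit [DecidableEq X] in
lemma Mv.mono {k k' : ℕ} {v v' : List X} (h : Mv S k v v') (hk : k ≤ k') : Mv S k' v v' := by
  obtain ⟨l, h1, h2, h3⟩ := h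
  exact ⟨l, h1.trans hk, h2, h3⟩

omit [DecidableEq X] in
lemma Mv.trans {k k' : ℕ} {v v' v'' : List X} (h : Mv S k v v') (h' : Mv S k' v' v'') :
    Mv S (k + k') v v'' := by
  obtain ⟨l, h1, h2, h3⟩ := h
  obtain ⟨l', h1', h2', h3'⟩ := h'
  refine ⟨l' ++ l, by simp; omega, fun s hs => ?_, fun w => ?_⟩
  · rcases List.mem_append.1 hs with h | h
    · exact h2' s h
    · exact h2 s h
  · rw [List.prod_append, Equiv.Perm.mul_apply, h3, h3']

omit [DecidableEq X] in
lemma Mv.append {k : ℕ} {v v' : List X} (h : Mv S k v v') (u : List X) :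
    Mv S k (v ++ u) (v' ++ u) := by
  obtain ⟨l, h1, h2, h3⟩ := h
  exact ⟨l, h1, h2, fun w => by rw [List.append_assoc, h3, List.append_assoc]⟩

omit [DecidableEq X] in
lemma Mv.symm (hS : ∀ s ∈ S, s⁻¹ ∈ S) {k : ℕ} {v v' : List X} (h : Mv S k v v') :
    Mv S k v' v := by
  obtain ⟨l, h1, h2, h3⟩ := h
  refine ⟨(l.map fun x => x⁻¹).reverse, by simpa using h1, fun s hs => ?_, fun w => ?_⟩
  · simp only [List.mem_reverse, List.mem_map] at hs
    obtain ⟨t, ht, rfl⟩ := hs
    exact hS t (h2 t ht)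
  · rw [← List.prod_inv_reverse, ← h3]; simp

omit [DecidableEq X] in
lemma Mv.edist_le (hG : SelfSimilar (Subgroup.closure (S : Set (Equiv.Perm (List X)))))
    {k n : ℕ} {ξ η : ℕ → X} (h : Mv S k (pre ξ n) (pre η n)) (ht : ∀ i, n ≤ i → η i = ξ i) :
    (schreier S).edist ξ η ≤ k := by
  obtain ⟨l, h1, h2, h3⟩ := h
  obtain ⟨ζ, hζ⟩ := hG.exists_sends (g := l.prod)
    (Subgroup.list_prod_mem _ fun t ht => Subgroup.subset_closure (h2 t ht)) ξ
  have : ζ = η := by
    refine eq_of_pre (n := n) fun j hj => ?_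
    obtain ⟨j, rfl⟩ := Nat.exists_eq_add_of_le hj
    rw [← sends_iff.1 hζ, pre_add, h3, pre_add]
    congr 2
    funext i
    exact (ht _ (by omega)).symm
  subst this
  exact (edist_le_of_sends hG l h2 hζ).trans (by exact_mod_cast h1)

end Pool.Agent.Lib.MP_f10b34_al
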