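import Pool.Agent.Lib.MP_f10b34_al.Hanoi

set_option autoImplicit false

namespace Pool.Agent.Lib.MP_f10b34_al

open List (replicate)

/-- the fast letters -/
def InF (K x : ℕ) : Prop := x = 0 ∨ K < x

/-- the allowed moves: behind a run of `z`, exchange the letters `u` and `v`. -/
def Ok (K z u v : ℕ) : Prop :=
  (InF K z ∧ InF K u ∧ InF K v ∧ u ≠ z ∧ v ≠ z) ∨
  (InF K z ∧ u % 2 = 1 ∧ v = u + 1 ∧ v ≤ K) ∨ (z = K ∧ u % 2 = 0 ∧ v = u + 1 ∧ v ≤ K)

lemma Ok.ne {K z u v : ℕ} (hK : K % 2 = 0) (h : Ok K z u v) : u ≠ z ∧ v ≠ z := by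
  unfold Ok InF at h; omega

open Classical in
/-- the generating set -/
noncomputable def gens (K m : ℕ) : Finset (Equiv.Perm (List (Fin (K + m)))) :=
  (Finset.univ.filter fun p : Fin (K + m) × Fin (K + m) × Fin (K + m) =>
    Ok K p.1 p.2.1 p.2.2).image fun p =>
      if h : Equiv.swap p.2.1 p.2.2 p.1 = p.1 then hp p.1 (Equiv.swap p.2.1 p.2.2) h else 1

variable {K m : ℕ}

lemma swap_fix (hK : K % 2 = 0) {z u v : Fin (K + m)} (h : Ok K z u v) : Equiv.swap u v z = z :=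
  Equiv.swap_apply_of_ne_of_ne (fun e => (h.ne hK).1 (by rw [e])) (fun e => (h.ne hK).2 (by rw [e]))

lemma mem_gens (hK : K % 2 = 0) {s : Equiv.Perm (List (Fin (K + m)))} :
    s ∈ gens K m ↔ ∃ z u v : Fin (K + m), ∃ h : Ok K z u v,
      s = hp z (Equiv.swap u v) (swap_fix hK h) := by
  unfold gens
  simp only [Finset.mem_image, Finset.mem_filter, Finset.mem_univ, true_and]
  constructor
  · rintro ⟨⟨z, u, v⟩, h, rfl⟩
    exact ⟨z, u, v, h, dif_pos (swap_fix hK h)⟩
  · rintro ⟨z, u, v, h, rfl⟩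
    exact ⟨⟨z, u, v⟩, h, dif_pos (swap_fix hK h)⟩

lemma gens_hp (hK : K % 2 = 0) : ∀ s ∈ gens K m, ∃ z σ h, s = hp z σ h := by
  intro s hs
  obtain ⟨z, u, v, h, rfl⟩ := (mem_gens hK).1 hs
  exact ⟨_, _, _, rfl⟩

lemma gens_inv (hK : K % 2 = 0) : ∀ s ∈ gens K m, s⁻¹ ∈ gens K m := by
  intro s hs
  obtain ⟨z, u, v, h, rfl⟩ := (mem_gens hK).1 hs
  exact (mem_gens hK).2 ⟨z, u, v, h, rfl⟩

lemma mv_step (hK : K % 2 = 0) {z u v : Fin (K + m)} (h : Ok K z u v) (n : ℕ) :
    Mv (gens K m) 1 (replicate n z ++ [u]) (replicate n z ++ [v]) := by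
  refine ⟨[hp z (Equiv.swap u v) (swap_fix hK h)], le_rfl, ?_, fun w => ?_⟩
  · simpa using (mem_gens hK).2 ⟨z, u, v, h, rfl⟩
  · have hu : u ≠ z := fun e => (h.ne hK).1 (by rw [e])
    simp only [List.prod_cons, List.prod_nil, mul_one, List.append_assoc, List.singleton_append]
    rw [hp_replicate _ _ hu, Equiv.swap_apply_left]

lemma third (hm : m ≠ 2) {x z : Fin (K + m)} (hx : InF K x) (hz : InF K z) (hxz : x ≠ z) :
    ∃ g : Fin (K + m), InF K g ∧ (x : ℕ) ≠ g ∧ (z : ℕ) ≠ g := by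
  have h1 := x.2
  have h2 := z.2
  have h3 : (x : ℕ) ≠ z := fun e => hxz (Fin.ext e)
  unfold InF at *
  by_cases a : (x : ℕ) ≠ 0 ∧ (z : ℕ) ≠ 0
  · exact ⟨⟨0, by omega⟩, Or.inl rfl, a.1, a.2⟩
  by_cases b : (x : ℕ) ≠ K + 1 ∧ (z : ℕ) ≠ K + 1
  · exact ⟨⟨K + 1, by omega⟩, Or.inr (by simp), b.1, b.2⟩
  · exact ⟨⟨K + 2, by omega⟩, Or.inr (by simp), by simp; omega, by simp; omega⟩

lemma fast_step (hK : K % 2 = 0) (hm : m ≠ 2) {n : ℕ}
    (hf : ∀ z z' : Fin (K + m), InF K z → InF K z' →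
      Mv (gens K m) (2 ^ n - 1) (replicate n z) (replicate n z'))
    {E : ℕ} {w : List (Fin (K + m))}
    (hw : ∀ g : Fin (K + m), InF K g → Mv (gens K m) E w (replicate n g))
    {x z : Fin (K + m)} (hx : InF K x) (hz : InF K z) :
    Mv (gens K m) (E + 2 ^ n) (w ++ [x]) (replicate (n + 1) z) := by
  rw [List.replicate_succ']
  by_cases hxz : x = z
  · subst hxz
    exact ((hw x hx).append _).mono (Nat.le_add_right _ _)
  · obtain ⟨g, hg, h1, h2⟩ := third hm hx hz hxz
    have := (((hw g hg).append [x]).trans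
      (mv_step hK (Or.inl ⟨hg, hx, hz, h1, h2⟩) n)).trans ((hf g z hg hz).append [z])
    refine this.mono ?_
    have : 1 ≤ 2 ^ n := Nat.one_le_two_pow
    omega

lemma fast (hK : K % 2 = 0) (hm : m ≠ 2) (n : ℕ) : ∀ z z' : Fin (K + m), InF K z → InF K z' →
    Mv (gens K m) (2 ^ n - 1) (replicate n z) (replicate n z') := by
  induction n with
  | zero => intro z z' _ _; exact Mv.refl _ _
  | succ n ih =>
    intro z z' hz hz'
    have := fast_step hK hm ih (fun g hg => ih z g hz hg) hz hz'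
    rw [← List.replicate_succ'] at this
    refine this.mono ?_
    have : 1 ≤ 2 ^ n := Nat.one_le_two_pow
    rw [pow_succ]; omega

/-- bound for the slow distance -/
def VV (K : ℕ) : ℕ → ℕ
  | 0 => 0
  | n + 1 => 2 ^ n + K * (VV K n + 1) + VV K n

lemma VV_le (hK2 : 2 ≤ K) (n : ℕ) : VV K n + 1 + 2 ^ n ≤ 2 * (K + 1) ^ n := by
  induction n with
  | zero => simp [VV]
  | succ n ih =>
    have h1 : (K + 1) * (VV K n + 1 + 2 ^ n) ≤ (K + 1) * (2 * (K + 1) ^ n) :=
      Nat.mul_le_mul_left _ ih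
    have h2 : 2 * 2 ^ n ≤ K * 2 ^ n := Nat.mul_le_mul_right _ hK2
    simp only [VV, pow_succ]
    nlinarith

lemma down2 (hK : K % 2 = 0) {n V : ℕ} {g e o : Fin (K + m)} (hg : InF K g) (he : (e : ℕ) = K)
    (ho : (o : ℕ) = 0) (hs : Mv (gens K m) V (replicate n g) (replicate n e)) (s : ℕ) :
    ∀ x : Fin (K + m), (x : ℕ) = 2 * s → 2 * s ≤ K →
      Mv (gens K m) (s * (2 * V + 2)) (replicate n g ++ [o]) (replicate n g ++ [x]) := by
  induction s with
  | zero =>
    intro x hx _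
    have : x = o := Fin.ext (by omega)
    rw [this]; exact Mv.refl _ _
  | succ s ih =>
    intro x hx hle
    have hx2 := x.2
    have h1 := ih ⟨2 * s, by omega⟩ rfl (by omega)
    have h2 := mv_step hK (z := e) (u := ⟨2 * s, by omega⟩) (v := ⟨2 * s + 1, by omega⟩)
      (Or.inr (Or.inr ⟨he, by simp, rfl, by simp; omega⟩)) n
    have h3 := mv_step hK (z := g) (u := ⟨2 * s + 1, by omega⟩) (v := x)
      (Or.inr (Or.inl ⟨hg, by simp, by simp; omega, by omega⟩)) n
    have := (((h1.trans (hs.append _)).trans h2).trans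
      ((hs.symm (gens_inv hK)).append _)).trans h3
    refine this.mono (le_of_eq ?_)
    ring

lemma slow (hK : K % 2 = 0) (hm : m ≠ 2) {e o : Fin (K + m)} (he : (e : ℕ) = K)
    (ho : (o : ℕ) = 0) (n : ℕ) : ∀ z : Fin (K + m), InF K z →
    Mv (gens K m) (VV K n) (replicate n z) (replicate n e) := by
  induction n with
  | zero => intro z _; exact Mv.refl _ _
  | succ n ih =>
    intro z hz
    have hoF : InF K o := Or.inl ho
    obtain ⟨g, hg, h1⟩ : ∃ g : Fin (K + m), InF K g ∧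
        Mv (gens K m) (2 ^ n) (replicate n z ++ [z]) (replicate n g ++ [o]) := by
      by_cases hzo : z = o
      · subst hzo
        exact ⟨z, hz, Mv.refl _ _⟩
      · obtain ⟨g, hg, h1, h2⟩ := third hm hz hoF hzo
        refine ⟨g, hg, (((fast hK hm n z g hz hg).append [z]).trans
          (mv_step hK (Or.inl ⟨hg, hz, hoF, h1, h2⟩) n)).mono ?_⟩
        have : 1 ≤ 2 ^ n := Nat.one_le_two_pow
        omega
    have h2 := down2 hK hg he ho (ih g hg) (K / 2) e (by omega) (by omega)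
    have := (h1.trans h2).trans ((ih g hg).append [e])
    rw [List.replicate_succ', List.replicate_succ']
    refine this.mono (le_of_eq ?_)
    obtain ⟨k, rfl⟩ : ∃ k, K = 2 * k := ⟨K / 2, by omega⟩
    simp only [VV]
    rw [Nat.mul_div_cancel_left _ (by norm_num)]
    ring

lemma mv_all (hK : K % 2 = 0) (hK2 : 2 ≤ K) (hm1 : 1 ≤ m) (hm : m ≠ 2)
    (w : List (Fin (K + m))) : ∀ z : Fin (K + m), InF K z →
    Mv (gens K m) (3 * (K + 1) ^ w.length) w (replicate w.length z) := by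
  induction w using List.reverseRecOn with
  | nil => intro z _; exact Mv.refl _ _
  | append_singleton w x ih =>
    intro z hz
    rw [List.length_append, List.length_singleton]
    obtain ⟨n, hn⟩ : ∃ n, n = w.length := ⟨_, rfl⟩
    rw [← hn] at ih ⊢
    have hV := VV_le hK2 n
    have h2 : 1 ≤ 2 ^ n := Nat.one_le_two_pow
    by_cases hx : InF K x
    · refine (fast_step hK hm (fast hK hm n) ih hx hz).mono ?_
      rw [pow_succ]; nlinarith
    · let o : Fin (K + m) := ⟨0, by omega⟩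
      let e : Fin (K + m) := ⟨K, by omega⟩
      have hoF : InF K o := Or.inl rfl
      have hs := slow hK hm (e := e) (o := o) rfl rfl n o hoF
      have h3 : Mv (gens K m) (K * (VV K n + 1) + 1) (replicate n o ++ [o]) (replicate n o ++ [x]) := by
        unfold InF at hx
        have hb : ∀ s, 2 * s ≤ K → s * (2 * VV K n + 2) ≤ K * (VV K n + 1) := by
          intro s hs; nlinarith
        rcases Nat.even_or_odd' (x : ℕ) with ⟨s, hs' | hs'⟩
        · exact (down2 hK hoF (e := e) (o := o) rfl rfl hs s x hs' (by omega)).mono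
            ((hb s (by omega)).trans (by omega))
        · have h4 := down2 hK hoF (e := e) (o := o) rfl rfl hs (s + 1) ⟨2 * s + 2, by omega⟩
            (by simp; ring) (by omega)
          have h5 := mv_step hK (z := o) (u := x) (v := ⟨2 * s + 2, by omega⟩)
            (Or.inr (Or.inl ⟨hoF, by omega, by simp; omega, by simp; omega⟩)) n
          exact (h4.trans (h5.symm (gens_inv hK))).mono
            (Nat.add_le_add_right (hb (s + 1) (by omega)) 1)
      have h4 := fast hK hm (n + 1) o z hoF hz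
      rw [List.replicate_succ' (a := o)] at h4
      refine ((((ih o hoF).append [x]).trans (h3.symm (gens_inv hK))).trans h4).mono ?_
      have h5 : K * (VV K n + 1 + 2 ^ n) ≤ K * (2 * (K + 1) ^ n) := Nat.mul_le_mul_left _ hV
      have h6 : 2 * 2 ^ n ≤ K * 2 ^ n := Nat.mul_le_mul_right _ hK2
      have h7 : 2 ^ (n + 1) - 1 + 1 = 2 * 2 ^ n := by rw [pow_succ]; omega
      rw [pow_succ (K + 1)]
      nlinarith [Nat.zero_le (K * (K + 1) ^ n)]

lemma mv_mixed (hK : K % 2 = 0) (hK2 : 2 ≤ K) (hm1 : 1 ≤ m) (hm : m ≠ 2)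
    (η : ℕ → Fin (K + m)) (j i : ℕ) (h : ∀ k, j ≤ k → k < j + i → InF K (η k)) :
    ∀ z : Fin (K + m), InF K z →
    Mv (gens K m) (3 * (K + 1) ^ j + 2 ^ (j + i)) (pre η (j + i)) (replicate (j + i) z) := by
  induction i with
  | zero =>
    intro z hz
    have := mv_all hK hK2 hm1 hm (pre η j) z hz
    rw [pre_length] at this
    exact this.mono (Nat.le_add_right _ _)
  | succ i ih =>
    intro z hz
    rw [← add_assoc, pre_succ]
    refine (fast_step hK hm (fast hK hm (j + i)) (ih fun k h1 h2 => h k h1 (by omega))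
      (h (j + i) (by omega) (by omega)) hz).mono (le_of_eq ?_)
    ring

lemma Mv.exists_mem {X : Type} {S : Finset (Equiv.Perm (List X))} {k : ℕ} {v v' : List X}
    (h : Mv S k v v') : ∃ g ∈ Subgroup.closure (S : Set (Equiv.Perm (List X))),
      ∀ w, g (v ++ w) = v' ++ w := by
  obtain ⟨l, -, h2, h3⟩ := h
  exact ⟨l.prod, Subgroup.list_prod_mem _ fun t ht => Subgroup.subset_closure (h2 t ht), h3⟩

lemma exists_move (hK : K % 2 = 0) (hK2 : 2 ≤ K) (hm1 : 1 ≤ m) (hm : m ≠ 2)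
    (v v' : List (Fin (K + m))) (hl : v.length = v'.length) :
    ∃ g ∈ Subgroup.closure (gens K m : Set (Equiv.Perm (List (Fin (K + m))))),
      ∀ w, g (v ++ w) = v' ++ w := by
  have h1 := mv_all hK hK2 hm1 hm v ⟨0, by omega⟩ (Or.inl rfl)
  have h2 := mv_all hK hK2 hm1 hm v' ⟨0, by omega⟩ (Or.inl rfl)
  rw [hl] at h1
  exact (h1.trans (h2.symm (gens_inv hK))).exists_mem

theorem gens_levelTransitive (hK : K % 2 = 0) (hK2 : 2 ≤ K) (hm1 : 1 ≤ m) (hm : m ≠ 2) :
    LevelTransitive (Subgroup.closure (gens K m : Set (Equiv.Perm (List (Fin (K + m)))))) := by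
  intro v w hl
  obtain ⟨g, hg, e⟩ := exists_move hK hK2 hm1 hm v w hl
  exact ⟨g, hg, by simpa using e []⟩

theorem gens_selfReplicating (hK : K % 2 = 0) (hK2 : 2 ≤ K) (hm1 : 1 ≤ m) (hm : m ≠ 2) :
    SelfReplicating (Subgroup.closure (gens K m : Set (Equiv.Perm (List (Fin (K + m)))))) := by
  intro x h hh
  induction hh using Subgroup.closure_induction with
  | mem s hs =>
    obtain ⟨z, σ, hσ, rfl⟩ := gens_hp hK s hs
    obtain ⟨k, hk, e⟩ := exists_move hK hK2 hm1 hm [x] [z] rfl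
    refine ⟨k⁻¹ * hp z σ hσ * k, Subgroup.mul_mem _ (Subgroup.mul_mem _ (Subgroup.inv_mem _ hk)
      (Subgroup.subset_closure hs)) hk, fun w => ?_⟩
    simp only [List.singleton_append] at e
    rw [Equiv.Perm.mul_apply, Equiv.Perm.mul_apply, e, hp_cons_eq, ← e]
    simp
  | one => exact ⟨1, Subgroup.one_mem _, fun w => rfl⟩
  | mul a b _ _ iha ihb =>
    obtain ⟨g, hg, e⟩ := iha
    obtain ⟨g', hg', e'⟩ := ihb
    exact ⟨g * g', Subgroup.mul_mem _ hg hg', fun w => by
      rw [Equiv.Perm.mul_apply, e', e, Equiv.Perm.mul_apply]⟩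
  | inv a _ iha =>
    obtain ⟨g, hg, e⟩ := iha
    refine ⟨g⁻¹, Subgroup.inv_mem _ hg, fun w => ?_⟩
    rw [Equiv.Perm.inv_eq_iff_eq, e]
    simp

end Pool.Agent.Lib.MP_f10b34_al
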